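import Mathlib

set_option autoImplicit false

namespace Pool.Agent.H6.Interp

open Filter Topology MeasureTheory
open scoped ENNReal ZeroAtInfty

abbrev X : Type := C₀(ℕ, ℝ)

noncomputable def mk (f : ℕ → ℝ) (hf : Tendsto f atTop (𝓝 0)) : X :=
  ⟨⟨f, continuous_of_discreteTopology⟩, by
    rw [Filter.cocompact_eq_cofinite, Nat.cofinite_eq_atTop]; exact hf⟩

theorem mk_apply (f : ℕ → ℝ) (hf : Tendsto f atTop (𝓝 0)) (n : ℕ) : mk f hf n = f n := rfl

theorem coord (x : X) (n : ℕ) : |x n| ≤ ‖x‖ := by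
  rw [← ZeroAtInftyContinuousMap.norm_toBCF_eq_norm]
  exact BoundedContinuousFunction.norm_coe_le_norm x.toBCF n

theorem norm_le (x : X) (C : ℝ) (hC : 0 ≤ C) (h : ∀ n, |x n| ≤ C) : ‖x‖ ≤ C := by
  rw [← ZeroAtInftyContinuousMap.norm_toBCF_eq_norm]
  exact (BoundedContinuousFunction.norm_le hC).mpr h

theorem tend (x : X) : Tendsto (fun n => x n) atTop (𝓝 0) := by
  have := x.zero_at_infty'
  rw [Filter.cocompact_eq_cofinite, Nat.cofinite_eq_atTop] at this
  exact this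

theorem tend_of_le (x : X) (f : ℕ → ℝ) (h : ∀ n, |f n| ≤ |x n|) : Tendsto f atTop (𝓝 0) := by
  rw [tendsto_zero_iff_abs_tendsto_zero]
  have h1 := (tend x).abs
  rw [abs_zero] at h1
  exact squeeze_zero (fun n => abs_nonneg _) h h1

theorem q (n : ℕ) (s : ℝ) : |(1/4 : ℝ) ^ n * s| ≤ |s| := by
  rw [abs_mul, abs_of_nonneg (by positivity : (0:ℝ) ≤ (1/4) ^ n)]
  have : (1/4 : ℝ) ^ n ≤ 1 := pow_le_one₀ (by norm_num) (by norm_num)
  nlinarith [abs_nonneg s]

noncomputable def J : X →L[ℝ] X :=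
  LinearMap.mkContinuous
    { toFun := fun y => mk (fun n => (1/4 : ℝ) ^ n * y n) (tend_of_le y _ (fun n => q n _))
      map_add' := by
        intro y z; ext n
        change (1/4 : ℝ) ^ n * (y n + z n) = (1/4 : ℝ) ^ n * y n + (1/4 : ℝ) ^ n * z n
        ring
      map_smul' := by
        intro c y; ext n
        change (1/4 : ℝ) ^ n * (c * y n) = c * ((1/4 : ℝ) ^ n * y n)
        ring } 1 (by
    intro y
    rw [one_mul]
    exact norm_le _ _ (norm_nonneg _) (fun n => (q n (y n)).trans (coord y n)))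

theorem J_apply (y : X) (n : ℕ) : J y n = (1/4 : ℝ) ^ n * y n := rfl

theorem J_inj : Function.Injective J := by
  intro y z h
  ext n
  have h1 : J y n = J z n := by rw [h]
  rw [J_apply, J_apply] at h1
  exact mul_left_cancel₀ (by positivity) h1

noncomputable def cl (c s : ℝ) : ℝ := max (-c) (min s c)

theorem cl_abs (c s : ℝ) (hc : 0 ≤ c) : |cl c s| ≤ c := by
  unfold cl
  rw [abs_le]
  exact ⟨le_max_left _ _, max_le (by linarith) (min_le_right _ _)⟩

theorem cl_lip (c s s' : ℝ) : |cl c s - cl c s'| ≤ |s - s'| := by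
  unfold cl
  have h1 := abs_max_sub_max_le_max (-c) (min s c) (-c) (min s' c)
  have h2 := abs_min_sub_min_le_max s c s' c
  have h3 : |(-c) - (-c)| ≤ |min s c - min s' c| := by
    rw [sub_self, abs_zero]; exact abs_nonneg _
  have h4 : |c - c| ≤ |s - s'| := by
    rw [sub_self, abs_zero]; exact abs_nonneg _
  exact (h1.trans (max_le h3 le_rfl)).trans (h2.trans (max_le le_rfl h4))

theorem cl_zero (c : ℝ) (hc : 0 ≤ c) : cl c 0 = 0 := by
  unfold cl
  rw [min_eq_left hc, max_eq_right (by linarith)]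

theorem cl_le (c s : ℝ) (hc : 0 ≤ c) : |cl c s| ≤ |s| := by
  have := cl_lip c s 0
  rwa [cl_zero c hc, sub_zero, sub_zero] at this

noncomputable def u (x : ℕ → ℝ) (n : ℕ) : ℝ := cl ((1/2) ^ n) (x n) * Real.sin (2 ^ n * x 0)

theorem u_le (x : ℕ → ℝ) (n : ℕ) : |u x n| ≤ |x n| := by
  unfold u
  rw [abs_mul]
  have h1 := cl_le ((1/2) ^ n) (x n) (by positivity)
  have h2 := Real.abs_sin_le_one (2 ^ n * x 0)
  nlinarith [abs_nonneg (cl ((1/2) ^ n) (x n)), abs_nonneg (Real.sin (2 ^ n * x 0))]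

theorem sin_lip (a b : ℝ) : |Real.sin a - Real.sin b| ≤ |a - b| := by
  have := Real.lipschitzWith_sin.dist_le_mul a b
  simpa [Real.dist_eq] using this

theorem u_lip (x y : ℕ → ℝ) (n : ℕ) (C : ℝ) (h : ∀ k, |x k - y k| ≤ C) :
    |u x n - u y n| ≤ 2 * C := by
  have e : u x n - u y n = (cl ((1/2) ^ n) (x n) - cl ((1/2) ^ n) (y n)) * Real.sin (2 ^ n * x 0)
      + cl ((1/2) ^ n) (y n) * (Real.sin (2 ^ n * x 0) - Real.sin (2 ^ n * y 0)) := by
    unfold u; ring
  rw [e]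
  refine (abs_add_le _ _).trans ?_
  rw [abs_mul, abs_mul]
  have h1 := (cl_lip ((1/2) ^ n) (x n) (y n)).trans (h n)
  have h2 := Real.abs_sin_le_one (2 ^ n * x 0)
  have h3 := cl_abs ((1/2) ^ n) (y n) (by positivity)
  have h4 := sin_lip (2 ^ n * x 0) (2 ^ n * y 0)
  have h5 : |2 ^ n * x 0 - 2 ^ n * y 0| = 2 ^ n * |x 0 - y 0| := by
    rw [← mul_sub, abs_mul, abs_of_nonneg (by positivity)]
  rw [h5] at h4
  have h6 : |cl ((1/2) ^ n) (y n)| * |Real.sin (2 ^ n * x 0) - Real.sin (2 ^ n * y 0)| ≤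
      (1/2) ^ n * (2 ^ n * |x 0 - y 0|) :=
    mul_le_mul h3 h4 (abs_nonneg _) (by positivity)
  have h7 : ((1/2 : ℝ)) ^ n * (2 ^ n * |x 0 - y 0|) = |x 0 - y 0| := by
    rw [← mul_assoc, ← mul_pow]; norm_num
  rw [h7] at h6
  have h8 : |cl ((1/2) ^ n) (x n) - cl ((1/2) ^ n) (y n)| * |Real.sin (2 ^ n * x 0)| ≤ C := by
    have := mul_le_mul h1 h2 (abs_nonneg _) ((abs_nonneg _).trans (h n))
    linarith
  linarith [h 0]

noncomputable def U (x : X) : X := mk (u x) (tend_of_le x _ (u_le x))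

theorem v_le (y : X) (n : ℕ) : |4 ^ n * u (J y) n| ≤ |y n| := by
  rw [abs_mul, abs_of_nonneg (by positivity : (0:ℝ) ≤ 4 ^ n)]
  have h := u_le (J y) n
  rw [J_apply, abs_mul, abs_of_nonneg (by positivity : (0:ℝ) ≤ (1/4) ^ n)] at h
  have h2 : (4 : ℝ) ^ n * ((1/4) ^ n * |y n|) = |y n| := by
    rw [← mul_assoc, ← mul_pow]; norm_num
  calc (4 : ℝ) ^ n * |u (J y) n| ≤ 4 ^ n * ((1/4) ^ n * |y n|) :=
        mul_le_mul_of_nonneg_left h (by positivity)
    _ = _ := h2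

noncomputable def V (y : X) : X := mk (fun n => 4 ^ n * u (J y) n) (tend_of_le y _ (v_le y))

theorem V_apply (y : X) (n : ℕ) : V y n = 4 ^ n * u (J y) n := rfl

theorem U_lip (a b : X) : ‖U a - U b‖ ≤ 2 * ‖a - b‖ := by
  refine norm_le _ _ (by positivity) (fun n => ?_)
  exact u_lip a b n _ (fun k => coord (a - b) k)

theorem UV (x : X) : U (J x) = J (V x) := by
  ext n
  rw [J_apply, V_apply, ← mul_assoc, ← mul_pow]
  change u (J x) n = _
  norm_num

theorem V_le (x : X) : ‖V x‖ ≤ 1 * ‖x‖ := by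
  rw [one_mul]
  exact norm_le _ _ (norm_nonneg _) (fun n => (v_le x n).trans (coord x n))

theorem V_lip (y z : X) (n : ℕ) : |V y n - V z n| ≤ 4 ^ n * (2 * ‖y - z‖) := by
  rw [V_apply, V_apply, ← mul_sub, abs_mul, abs_of_nonneg (by positivity : (0:ℝ) ≤ 4 ^ n)]
  apply mul_le_mul_of_nonneg_left _ (by positivity)
  apply u_lip
  intro k
  have h1 : J y k - J z k = (1/4 : ℝ) ^ k * ((y - z) k) := by
    rw [J_apply, J_apply]
    change _ = (1/4 : ℝ) ^ k * (y k - z k)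
    ring
  rw [h1]
  exact (q k _).trans (coord _ k)

theorem V_cont : Continuous V := by
  rw [Metric.continuous_iff]
  intro y ε hε
  have h1 := tend y
  rw [Metric.tendsto_atTop] at h1
  obtain ⟨N, hN⟩ := h1 (ε / 8) (by positivity)
  refine ⟨min (ε / 8) (ε / (4 * 4 ^ N)), by positivity, fun z hz => ?_⟩
  rw [dist_eq_norm] at hz ⊢
  have hz1 := hz.trans_le (min_le_left _ _)
  have hz2 := hz.trans_le (min_le_right _ _)
  have key : ‖V z - V y‖ ≤ ε / 2 := by
    refine norm_le _ _ (by positivity) (fun n => ?_)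
    change |V z n - V y n| ≤ ε / 2
    rcases le_or_gt N n with hn | hn
    · have a1 := v_le z n
      have a2 := v_le y n
      have a3 := hN n hn
      rw [Real.dist_eq, sub_zero] at a3
      have a4 := coord (z - y) n
      have a5 : (z - y) n = z n - y n := rfl
      rw [a5] at a4
      rw [V_apply, V_apply]
      have a6 : |z n| ≤ |z n - y n| + |y n| := by
        have := abs_add_le (z n - y n) (y n)
        simpa using this
      have a7 := abs_sub (4 ^ n * u (J z) n) (4 ^ n * u (J y) n)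
      linarith
    · have a1 := V_lip z y n
      have a2 : (4 : ℝ) ^ n ≤ 4 ^ N := pow_le_pow_right₀ (by norm_num) hn.le
      have a3 : (4 : ℝ) ^ N * (2 * ‖z - y‖) ≤ ε / 2 := by
        rw [lt_div_iff₀ (by positivity)] at hz2
        linarith
      have a4 : (4 : ℝ) ^ n * (2 * ‖z - y‖) ≤ 4 ^ N * (2 * ‖z - y‖) :=
        mul_le_mul_of_nonneg_right a2 (by positivity)
      linarith
  linarith

noncomputable def kf (x : X) (t : ℝ) : ℝ := ⨅ y : X, (‖x - J y‖ + t * ‖y‖)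

theorem kf_le (x : X) (t : ℝ) (ht : 0 ≤ t) (y : X) : kf x t ≤ ‖x - J y‖ + t * ‖y‖ := by
  apply ciInf_le
  refine ⟨0, ?_⟩
  rintro _ ⟨y, rfl⟩
  positivity

theorem kf_nonneg (x : X) (t : ℝ) (ht : 0 ≤ t) : 0 ≤ kf x t := by
  apply Real.iInf_nonneg
  intro y
  positivity

theorem halfT : Tendsto (fun n : ℕ => ((1/2 : ℝ)) ^ n) atTop (𝓝 0) :=
  tendsto_pow_atTop_nhds_zero_of_lt_one (by norm_num) (by norm_num)

noncomputable def A (η : ℝ) : X := mk (fun n => if n = 0 then η else (1/2) ^ n) (by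
  refine halfT.congr' ?_
  filter_upwards [eventually_gt_atTop 0] with n hn
  rw [if_neg (by omega)])

noncomputable def E (η : ℝ) : X := mk (fun n => if n = 0 then η else 0) (by
  refine tendsto_const_nhds.congr' ?_
  filter_upwards [eventually_gt_atTop 0] with n hn
  rw [if_neg (by omega)])

noncomputable def Y (N : ℕ) (η : ℝ) : X :=
  mk (fun n => if n = 0 then η else if n ≤ N then 2 ^ n else 0) (by
  refine tendsto_const_nhds.congr' ?_
  filter_upwards [eventually_gt_atTop N] with n hn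
  rw [if_neg (by omega), if_neg (by omega)])

theorem A_sub (η : ℝ) : A η - A 0 = E η := by
  ext n
  change (if n = 0 then η else (1/2) ^ n) - (if n = 0 then 0 else (1/2) ^ n) =
    (if n = 0 then η else 0)
  split_ifs <;> simp

theorem E_norm (η : ℝ) (h : 0 ≤ η) : ‖E η‖ ≤ η := by
  refine norm_le _ _ h (fun n => ?_)
  change |if n = 0 then η else 0| ≤ η
  split_ifs
  · rw [abs_of_nonneg h]
  · simpa using h

theorem JE (η : ℝ) : J (E η) = E η := by
  ext n
  rw [J_apply]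
  change (1/4 : ℝ) ^ n * (if n = 0 then η else 0) = if n = 0 then η else 0
  split_ifs with h
  · subst h; simp
  · simp

theorem A_norm (η : ℝ) (h : 0 ≤ η) (h1 : η ≤ 1) : ‖A η‖ ≤ 1 := by
  refine norm_le _ _ zero_le_one (fun n => ?_)
  change |if n = 0 then η else (1/2 : ℝ) ^ n| ≤ 1
  split_ifs
  · rw [abs_of_nonneg h]; exact h1
  · rw [abs_of_nonneg (by positivity)]; exact pow_le_one₀ (by norm_num) (by norm_num)

theorem Y_norm (N : ℕ) (η : ℝ) (h : 0 ≤ η) (h1 : η ≤ 1) : ‖Y N η‖ ≤ 2 ^ N := by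
  refine norm_le _ _ (by positivity) (fun n => ?_)
  change |if n = 0 then η else if n ≤ N then (2 : ℝ) ^ n else 0| ≤ 2 ^ N
  split_ifs with h2 h3
  · rw [abs_of_nonneg h]; exact h1.trans (one_le_pow₀ (by norm_num))
  · rw [abs_of_nonneg (by positivity)]; exact pow_le_pow_right₀ (by norm_num) h3
  · rw [abs_zero]; positivity

theorem AY_norm (N : ℕ) (η : ℝ) : ‖A η - J (Y N η)‖ ≤ (1/2) ^ (N + 1) := by
  refine norm_le _ _ (by positivity) (fun n => ?_)
  change |(if n = 0 then η else (1/2 : ℝ) ^ n) - (1/4 : ℝ) ^ n *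
    (if n = 0 then η else if n ≤ N then (2 : ℝ) ^ n else 0)| ≤ (1/2) ^ (N + 1)
  split_ifs with h2 h3
  · subst h2; simp
  · rw [← mul_pow]; norm_num
  · rw [mul_zero, sub_zero, abs_of_nonneg (by positivity)]
    exact pow_le_pow_of_le_one (by norm_num) (by norm_num) (by omega)

theorem r_sq (t : ℝ) (ht : 0 < t) : 0 < t ^ (-(1/2 : ℝ)) ∧ (t ^ (-(1/2 : ℝ))) ^ 2 * t = 1 := by
  refine ⟨Real.rpow_pos_of_pos ht _, ?_⟩
  rw [← Real.rpow_natCast, ← Real.rpow_mul ht.le]
  norm_num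
  rw [Real.rpow_neg_one]
  exact inv_mul_cancel₀ ht.ne'

theorem A_bound (η : ℝ) (h : 0 ≤ η) (h1 : η ≤ 1) (t : ℝ) (ht : 0 < t) :
    t ^ (-(1/2 : ℝ)) * kf (A η) t ≤ 3 := by
  obtain ⟨hr, hr2⟩ := r_sq t ht
  set r := t ^ (-(1/2 : ℝ)) with hrd
  rcases le_or_gt t 1 with ht1 | ht1
  · obtain ⟨N, hN1, hN2⟩ := exists_nat_pow_near_of_lt_one ht ht1 (by norm_num : (0:ℝ) < 1/4)
      (by norm_num : (1/4 : ℝ) < 1)
    have k1 := kf_le (A η) t ht.le (Y N η)
    have k2 := AY_norm N η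
    have k3 := Y_norm N η h h1
    have e1 : (1/2 : ℝ) ^ (N+1) * 2 ^ (N+1) = 1 := by rw [← mul_pow]; norm_num
    have e2 : (1/4 : ℝ) ^ (N+1) * (2 ^ (N+1)) ^ 2 = 1 := by
      rw [← pow_mul, mul_comm (N+1) 2, pow_mul, ← mul_pow]; norm_num
    have hp : (0:ℝ) < 2 ^ (N+1) := by positivity
    have r1 : r ≤ 2 ^ (N + 1) := by
      by_contra hc
      push Not at hc
      have : (2 ^ (N+1) : ℝ) ^ 2 < r ^ 2 := by nlinarith
      have h5 : (1/4 : ℝ) ^ (N+1) * (2 ^ (N+1)) ^ 2 < t * r ^ 2 := by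
        apply mul_lt_mul hN1 this.le (by positivity) ht.le
      linarith
    have f1 : r * (1/2) ^ (N+1) ≤ 1 := by
      calc r * (1/2) ^ (N+1) ≤ 2 ^ (N+1) * (1/2) ^ (N+1) :=
            mul_le_mul_of_nonneg_right r1 (by positivity)
        _ = 1 := by rw [mul_comm]; exact e1
    have e3 : (2 : ℝ) ^ (N+1) * ((1/4) ^ N * 2 ^ N) = 2 := by
      rw [pow_succ]
      have : (2:ℝ) ^ N * 2 * ((1/4) ^ N * 2 ^ N) = 2 * ((2 * (1/4) * 2) ^ N) := by
        rw [mul_pow, mul_pow]; ring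
      rw [this]; norm_num
    have f2 : r * (t * 2 ^ N) ≤ 2 := by
      calc r * (t * 2 ^ N) ≤ 2 ^ (N+1) * ((1/4) ^ N * 2 ^ N) :=
            mul_le_mul r1 (mul_le_mul_of_nonneg_right hN2 (by positivity)) (by positivity)
              (by positivity)
        _ = 2 := e3
    have f3 : kf (A η) t ≤ (1/2) ^ (N+1) + t * 2 ^ N := by
      have := mul_le_mul_of_nonneg_left k3 ht.le
      linarith
    have f4 := mul_le_mul_of_nonneg_left f3 hr.le
    rw [mul_add] at f4
    linarith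
  · have k1 := kf_le (A η) t ht.le 0
    rw [map_zero, sub_zero, norm_zero, mul_zero, add_zero] at k1
    have k2 := k1.trans (A_norm η h h1)
    have r1 : r ≤ 1 := by
      by_contra hc
      push Not at hc
      have : 1 < r ^ 2 := by nlinarith
      nlinarith
    have := mul_le_mul r1 k2 (kf_nonneg _ _ ht.le) zero_le_one
    linarith

theorem E_bound (η : ℝ) (h : 0 ≤ η) (t : ℝ) (ht : 0 < t) :
    t ^ (-(1/2 : ℝ)) * kf (E η) t ≤ η := by
  obtain ⟨hr, hr2⟩ := r_sq t ht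
  set r := t ^ (-(1/2 : ℝ)) with hrd
  rcases le_or_gt t 1 with ht1 | ht1
  · have k1 := kf_le (E η) t ht.le (E η)
    rw [JE, sub_self, norm_zero, zero_add] at k1
    have k2 := mul_le_mul_of_nonneg_left (E_norm η h) ht.le
    have r1 : r * t ≤ 1 := by
      by_contra hc
      push Not at hc
      have : 1 < (r * t) ^ 2 := by nlinarith
      have h3 : (r * t) ^ 2 = t := by
        calc (r * t) ^ 2 = (r ^ 2 * t) * t := by ring
          _ = t := by rw [hr2, one_mul]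
      linarith
    have k3 := mul_le_mul_of_nonneg_left (k1.trans k2) hr.le
    have k4 := mul_le_mul_of_nonneg_right r1 h
    calc r * kf (E η) t ≤ r * (t * η) := k3
      _ = r * t * η := by ring
      _ ≤ 1 * η := k4
      _ = η := one_mul _
  · have k1 := kf_le (E η) t ht.le 0
    rw [map_zero, sub_zero, norm_zero, mul_zero, add_zero] at k1
    have k2 := k1.trans (E_norm η h)
    have r1 : r ≤ 1 := by
      by_contra hc
      push Not at hc
      have : 1 < r ^ 2 := by nlinarith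
      nlinarith
    have := mul_le_mul r1 k2 (kf_nonneg _ _ ht.le) zero_le_one
    linarith

theorem low (c : X) (n : ℕ) (hc : c n = (1/2) ^ n) (t : ℝ) (h1 : (1/4) ^ n < t)
    (h2 : t < 4 * (1/4) ^ n) : 1/2 ≤ t ^ (-(1/2 : ℝ)) * kf c t := by
  have ht : 0 < t := lt_trans (by positivity) h1
  obtain ⟨hr, hr2⟩ := r_sq t ht
  set r := t ^ (-(1/2 : ℝ)) with hrd
  have k1 : (1/2) ^ n ≤ kf c t := by
    apply le_ciInf
    intro z
    have a1 := coord (c - J z) n
    have a2 := coord z n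
    have a3 : (c - J z) n = (1/2) ^ n - (1/4) ^ n * z n := by
      change c n - J z n = _
      rw [hc, J_apply]
    rw [a3] at a1
    have a4 : (1/4 : ℝ) ^ n * z n ≤ (1/4) ^ n * |z n| :=
      mul_le_mul_of_nonneg_left (le_abs_self _) (by positivity)
    have a5 : (1/4 : ℝ) ^ n * |z n| ≤ t * ‖z‖ :=
      mul_le_mul h1.le a2 (abs_nonneg _) ht.le
    have a6 := le_abs_self ((1/2 : ℝ) ^ n - (1/4) ^ n * z n)
    linarith
  have r1 : 2 ^ n / 2 ≤ r := by
    by_contra hcc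
    push Not at hcc
    have hp : (0:ℝ) < 2 ^ n := by positivity
    have b1 : r ^ 2 < (2 ^ n / 2) ^ 2 := by nlinarith
    have b2 : r ^ 2 * t < (2 ^ n / 2) ^ 2 * (4 * (1/4) ^ n) :=
      mul_lt_mul b1 h2.le ht (by positivity)
    have b3 : ((2 : ℝ) ^ n / 2) ^ 2 * (4 * (1/4) ^ n) = 1 := by
      have : ((2 : ℝ) ^ n / 2) ^ 2 * (4 * (1/4) ^ n) = (2 * 2 * (1/4)) ^ n := by
        rw [mul_pow, mul_pow]; ring
      rw [this]; norm_num
    linarith
  calc (1/2 : ℝ) = 2 ^ n / 2 * (1/2) ^ n := by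
        have : (2 : ℝ) ^ n * (1/2) ^ n = 1 := by rw [← mul_pow]; norm_num
        linarith
    _ ≤ r * kf c t := mul_le_mul r1 k1 (by positivity) hr.le

noncomputable def μ : Measure ℝ :=
  (volume.restrict (Set.Ioi (0:ℝ))).withDensity (fun t => ENNReal.ofReal t⁻¹)

theorem eL_le (x : X) (C : ℝ) (h : ∀ t : ℝ, 0 < t → t ^ (-(1/2 : ℝ)) * kf x t ≤ C) :
    eLpNorm (fun t : ℝ => t ^ (-(1/2 : ℝ)) * kf x t) ∞ μ ≤ ENNReal.ofReal C := by
  rw [eLpNorm_exponent_top]
  apply eLpNormEssSup_le_of_ae_bound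
  apply (withDensity_absolutelyContinuous _ _).ae_le
  apply ae_restrict_of_forall_mem measurableSet_Ioi
  intro t ht
  rw [Real.norm_eq_abs, abs_of_nonneg (mul_nonneg (Real.rpow_nonneg (le_of_lt ht) _)
    (kf_nonneg _ _ (le_of_lt ht)))]
  exact h t ht

theorem eL_ge (c : X) (n : ℕ) (hc : c n = (1/2) ^ n)
    (h : eLpNorm (fun t : ℝ => t ^ (-(1/2 : ℝ)) * kf c t) ∞ μ < ENNReal.ofReal (1/2)) : False := by
  rw [eLpNorm_exponent_top] at h
  have h1 := ae_lt_of_essSup_lt h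
  unfold μ at h1
  rw [ae_withDensity_iff (by fun_prop), ae_restrict_iff' measurableSet_Ioi] at h1
  have hf : ∃ᵐ t ∂(volume : Measure ℝ), t ∈ Set.Ioo ((1/4 : ℝ) ^ n) (4 * (1/4) ^ n) := by
    rw [frequently_ae_mem_iff, Real.volume_Ioo]
    have : (0:ℝ) < 4 * (1/4) ^ n - (1/4) ^ n := by
      have : (0:ℝ) < (1/4) ^ n := by positivity
      linarith
    simpa using this
  obtain ⟨t, ht1, ht2⟩ := (hf.and_eventually h1).exists
  have ht : 0 < t := lt_trans (by positivity) ht1.1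
  have h3 := ht2 ht (by simpa using ht)
  have h4 := low c n hc t ht1.1 ht1.2
  rw [← ofReal_norm_eq_enorm, ENNReal.ofReal_lt_ofReal_iff_of_nonneg (norm_nonneg _)] at h3
  have h5 := le_abs_self (t ^ (-(1/2 : ℝ)) * kf c t)
  rw [Real.norm_eq_abs] at h3
  linarith

theorem diff_coord (n : ℕ) (hn : n ≠ 0) :
    (U (A (Real.pi / 2 * (1/2) ^ n)) - U (A 0)) n = (1/2) ^ n := by
  change u (A (Real.pi / 2 * (1/2) ^ n)) n - u (A 0) n = (1/2) ^ n
  have a0 : ∀ η, A η 0 = η := fun η => by change (if (0:ℕ) = 0 then η else (1/2 : ℝ) ^ 0) = η; simp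
  have an : ∀ η, A η n = (1/2) ^ n := fun η => by
    change (if n = 0 then η else (1/2 : ℝ) ^ n) = _; rw [if_neg hn]
  unfold u
  rw [a0, a0, an, an, mul_zero, Real.sin_zero, mul_zero, sub_zero]
  have e : (2 : ℝ) ^ n * (Real.pi / 2 * (1/2) ^ n) = Real.pi / 2 := by
    have : (2 : ℝ) ^ n * (1/2) ^ n = 1 := by rw [← mul_pow]; norm_num
    calc _ = Real.pi / 2 * ((2 : ℝ) ^ n * (1/2) ^ n) := by ring
      _ = _ := by rw [this, mul_one]
  rw [e, Real.sin_pi_div_two, mul_one]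
  unfold cl
  rw [min_self]
  apply max_eq_right
  have : (0:ℝ) < (1/2) ^ n := by positivity
  linarith

end Pool.Agent.H6.Interp
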