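import Mathlib

set_option autoImplicit false

namespace Pool.Agent.H6.Sim

open Filter Topology
open scoped ENNReal InnerProductSpace

abbrev L2 : Type := lp (fun _ : ℕ => ℂ) 2

theorem memlp_iff {f : ℕ → ℂ} : Memℓp f 2 ↔ Summable fun n => ‖f n‖ ^ 2 := by
  have h2 : (2 : ℝ≥0∞).toReal = ((2 : ℕ) : ℝ) := by norm_num
  rw [memℓp_gen_iff (by norm_num)]
  simp_rw [h2, Real.rpow_natCast]

theorem norm_sq (c : L2) : ‖c‖ ^ 2 = ∑' n, ‖c n‖ ^ 2 := by
  have h2 : (2 : ℝ≥0∞).toReal = ((2 : ℕ) : ℝ) := by norm_num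
  have := lp.norm_rpow_eq_tsum (p := 2) (by norm_num) c
  simp_rw [h2, Real.rpow_natCast] at this
  exact this

theorem le_sq {a b : ℝ} (h : a ^ 2 ≤ b ^ 2) (hb : 0 ≤ b) : a ≤ b := by
  nlinarith [abs_nonneg a, sq_abs a, le_abs_self a, abs_le_of_sq_le_sq h hb]

/-- The right shift. -/
noncomputable def shift : L2 →L[ℂ] L2 :=
  LinearMap.mkContinuous
    { toFun := fun c => ⟨fun k => Nat.casesOn k 0 fun m => c m, memlp_iff.mpr (by
        rw [← summable_nat_add_iff 1]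
        exact memlp_iff.mp (lp.memℓp c))⟩
      map_add' := by
        intro g h
        ext n
        cases n with
        | zero => change (0 : ℂ) = 0 + 0; rw [add_zero]
        | succ n => rfl
      map_smul' := by
        intro c g
        ext n
        cases n with
        | zero => change (0 : ℂ) = c • 0; rw [smul_zero]
        | succ n => rfl } 1 (by
    intro c
    apply le_sq _ (by positivity)
    rw [one_mul, norm_sq, norm_sq]
    apply le_of_eq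
    have hs : Summable fun n => ‖(⟨fun k => Nat.casesOn k 0 fun m => c m, memlp_iff.mpr (by
        rw [← summable_nat_add_iff 1]
        exact memlp_iff.mp (lp.memℓp c))⟩ : L2) n‖ ^ 2 := memlp_iff.mp (lp.memℓp _)
    rw [LinearMap.coe_mk, AddHom.coe_mk, hs.tsum_eq_zero_add]
    simp)

theorem shift_zero (c : L2) : shift c 0 = 0 := rfl

theorem shift_succ (c : L2) (n : ℕ) : shift c (n + 1) = c n := rfl

theorem shift_norm_sq (c : L2) : ‖shift c‖ ^ 2 = ‖c‖ ^ 2 := by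
  rw [norm_sq, norm_sq, (memlp_iff.mp (lp.memℓp (shift c))).tsum_eq_zero_add, shift_zero]
  simp [shift_succ]

theorem shift_norm (c : L2) : ‖shift c‖ = ‖c‖ := by
  have := shift_norm_sq c
  exact le_antisymm (le_sq this.le (norm_nonneg _)) (le_sq this.ge (norm_nonneg _))

noncomputable def S : L2 →L[ℂ] L2 := shift * shift

theorem S_norm (c : L2) : ‖S c‖ = ‖c‖ := by
  change ‖shift (shift c)‖ = ‖c‖
  rw [shift_norm, shift_norm]

theorem S_zero (c : L2) : S c 0 = 0 := rfl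
theorem S_one (c : L2) : S c 1 = 0 := rfl
theorem S_succ (c : L2) (n : ℕ) : S c (n + 2) = c n := rfl

theorem dg_summable (w : ℕ → ℝ) (C : ℝ) (hw : ∀ n, |w n| ≤ C) (c : L2) :
    Summable fun n => ‖(w n : ℂ) * c n‖ ^ 2 := by
  refine Summable.of_nonneg_of_le (fun n => by positivity) (fun n => ?_)
    ((memlp_iff.mp (lp.memℓp c)).mul_left (C ^ 2))
  rw [norm_mul, mul_pow, Complex.norm_real, Real.norm_eq_abs]
  exact mul_le_mul_of_nonneg_right (pow_le_pow_left₀ (abs_nonneg _) (hw n) 2) (by positivity)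

noncomputable def dgl (w : ℕ → ℝ) (hw : ∀ n, |w n| ≤ 2) : L2 →ₗ[ℂ] L2 where
  toFun := fun c => ⟨fun n => (w n : ℂ) * c n, memlp_iff.mpr (dg_summable w 2 hw c)⟩
  map_add' := by
    intro g h
    ext n
    change (w n : ℂ) * (g n + h n) = (w n : ℂ) * g n + (w n : ℂ) * h n
    ring
  map_smul' := by
    intro a g
    ext n
    change (w n : ℂ) * (a * g n) = a * ((w n : ℂ) * g n)
    ring

theorem dgl_apply (w : ℕ → ℝ) (hw : ∀ n, |w n| ≤ 2) (c : L2) (n : ℕ) :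
    dgl w hw c n = (w n : ℂ) * c n := rfl

theorem dgl_le (w : ℕ → ℝ) (hw : ∀ n, |w n| ≤ 2) (C : ℝ) (hC : 0 ≤ C) (h : ∀ n, |w n| ≤ C)
    (c : L2) : ‖dgl w hw c‖ ≤ C * ‖c‖ := by
  apply le_sq _ (by positivity)
  rw [mul_pow, norm_sq, norm_sq, ← tsum_mul_left]
  refine Summable.tsum_le_tsum (fun n => ?_) (dg_summable w 2 hw c)
    ((memlp_iff.mp (lp.memℓp c)).mul_left (C ^ 2))
  rw [dgl_apply, norm_mul, mul_pow, Complex.norm_real, Real.norm_eq_abs]
  exact mul_le_mul_of_nonneg_right (pow_le_pow_left₀ (abs_nonneg _) (h n) 2) (by positivity)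

noncomputable def dg (w : ℕ → ℝ) (hw : ∀ n, |w n| ≤ 2) : L2 →L[ℂ] L2 :=
  (dgl w hw).mkContinuous 2 (dgl_le w hw 2 (by norm_num) hw)

theorem dg_apply (w : ℕ → ℝ) (hw : ∀ n, |w n| ≤ 2) (c : L2) (n : ℕ) :
    dg w hw c n = (w n : ℂ) * c n := rfl

theorem dg_norm_le (w : ℕ → ℝ) (hw : ∀ n, |w n| ≤ 2) (C : ℝ) (hC : 0 ≤ C) (h : ∀ n, |w n| ≤ C) :
    ‖dg w hw‖ ≤ C :=
  ContinuousLinearMap.opNorm_le_bound _ hC (dgl_le w hw C hC h)

theorem dg_norm_ge (w : ℕ → ℝ) (hw : ∀ n, |w n| ≤ 2) (i : ℕ) : |w i| ≤ ‖dg w hw‖ := by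
  have h := (dg w hw).le_opNorm (lp.single 2 i (1 : ℂ))
  have h1 : ‖(lp.single 2 i (1 : ℂ) : L2)‖ = 1 := by
    rw [lp.norm_single (by norm_num)]; simp
  rw [h1, mul_one] at h
  refine le_trans ?_ h
  have h2 := lp.norm_apply_le_norm (p := 2) (by norm_num) (dg w hw (lp.single 2 i (1 : ℂ))) i
  rw [dg_apply] at h2
  simpa using h2

noncomputable def dgu (w w' : ℕ → ℝ) (hw : ∀ n, |w n| ≤ 2) (hw' : ∀ n, |w' n| ≤ 2)
    (h : ∀ n, w n * w' n = 1) : (L2 →L[ℂ] L2)ˣ where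
  val := dg w hw
  inv := dg w' hw'
  val_inv := by
    ext c n
    change (w n : ℂ) * ((w' n : ℂ) * c n) = c n
    rw [← mul_assoc, ← Complex.ofReal_mul, h n]; simp
  inv_val := by
    ext c n
    change (w' n : ℂ) * ((w n : ℂ) * c n) = c n
    rw [← mul_assoc, mul_comm (w' n : ℂ), ← Complex.ofReal_mul, h n]; simp

noncomputable def l : ℕ → ℝ := fun n => if n = 0 then 2 else if n = 1 then 1/2 else 1
noncomputable def l' : ℕ → ℝ := fun n => if n = 0 then 1/2 else if n = 1 then 2 else 1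
noncomputable def d : ℕ → ℝ := fun n => if n % 2 = 0 then 1/2 else 1
noncomputable def d' : ℕ → ℝ := fun n => if n % 2 = 0 then 2 else 1
noncomputable def m : ℕ → ℝ := fun n => l n * d n
noncomputable def m' : ℕ → ℝ := fun n => l' n * d' n

theorem hl : ∀ n, |l n| ≤ 2 := by
  intro n; unfold l; split_ifs <;> norm_num [abs_le]
theorem hl' : ∀ n, |l' n| ≤ 2 := by
  intro n; unfold l'; split_ifs <;> norm_num [abs_le]
theorem hm1 : ∀ n, |m n| ≤ 1 := by
  intro n; unfold m l d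
  rcases n with _ | _ | n
  · norm_num [abs_le]
  · norm_num [abs_le]
  · rw [if_neg (show ¬ (n + 1 + 1 = 0) by omega), if_neg (show ¬ (n + 1 + 1 = 1) by omega)]
    split_ifs <;> norm_num [abs_le]
theorem hm : ∀ n, |m n| ≤ 2 := fun n => (hm1 n).trans (by norm_num)
theorem hm' : ∀ n, |m' n| ≤ 2 := by
  intro n; unfold m' l' d'
  rcases n with _ | _ | n
  · norm_num [abs_le]
  · norm_num [abs_le]
  · rw [if_neg (show ¬ (n + 1 + 1 = 0) by omega), if_neg (show ¬ (n + 1 + 1 = 1) by omega)]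
    split_ifs <;> norm_num [abs_le]
theorem hll : ∀ n, l n * l' n = 1 := by
  intro n; unfold l l'; split_ifs <;> norm_num
theorem hmm : ∀ n, m n * m' n = 1 := by
  intro n; unfold m m' l l' d d'; split_ifs <;> norm_num

noncomputable def L : (L2 →L[ℂ] L2)ˣ := dgu l l' hl hl' hll
noncomputable def M : (L2 →L[ℂ] L2)ˣ := dgu m m' hm hm' hmm

noncomputable def T : L2 →L[ℂ] L2 := (↑L⁻¹ : L2 →L[ℂ] L2) * S * (↑L : L2 →L[ℂ] L2)

theorem L_val : (↑L : L2 →L[ℂ] L2) = dg l hl := rfl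
theorem L_inv : (↑L⁻¹ : L2 →L[ℂ] L2) = dg l' hl' := rfl
theorem M_val : (↑M : L2 →L[ℂ] L2) = dg m hm := rfl
theorem M_inv : (↑M⁻¹ : L2 →L[ℂ] L2) = dg m' hm' := rfl

theorem T_eq : T = (↑M⁻¹ : L2 →L[ℂ] L2) * S * (↑M : L2 →L[ℂ] L2) := by
  unfold T
  rw [L_val, L_inv, M_val, M_inv]
  ext c n
  change (l' n : ℂ) * S (dg l hl c) n = (m' n : ℂ) * S (dg m hm c) n
  rcases n with _ | _ | n
  · rw [S_zero, S_zero]; simp
  · rw [S_one, S_one]; simp
  · rw [S_succ, S_succ, dg_apply, dg_apply, ← mul_assoc, ← mul_assoc, ← Complex.ofReal_mul,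
      ← Complex.ofReal_mul]
    congr 2
    unfold m m' l' d d'
    have : (n + 1 + 1) % 2 = n % 2 := by omega
    rw [this]
    split_ifs <;> first | omega | ring

theorem Linv_S (y : L2) : (dg l' hl') (S y) = S y := by
  ext n
  rw [dg_apply]
  rcases n with _ | _ | n
  · rw [S_zero]; simp
  · rw [S_one]; simp
  · have : l' (n + 1 + 1) = 1 := by unfold l'; simp
    rw [this]; simp

theorem Spow_norm (n : ℕ) (y : L2) : ‖(S ^ n) y‖ = ‖y‖ := by
  induction n with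
  | zero => simp
  | succ n ih =>
    rw [pow_succ']
    change ‖S ((S ^ n) y)‖ = ‖y‖
    rw [S_norm, ih]

theorem T_lim (x : L2) : Tendsto (fun n : ℕ => ‖(T ^ n) x‖) atTop (𝓝 ‖(↑L : L2 →L[ℂ] L2) x‖) := by
  apply tendsto_const_nhds.congr'
  filter_upwards [eventually_ge_atTop 1] with n hn
  obtain ⟨k, rfl⟩ := Nat.exists_eq_add_of_le' hn
  have h1 : T ^ (k + 1) = (↑L⁻¹ : L2 →L[ℂ] L2) * S ^ (k + 1) * (↑L : L2 →L[ℂ] L2) := by
    unfold T
    exact Units.conj_pow' L S (k + 1)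
  rw [h1, pow_succ', L_inv]
  change _ = ‖(dg l' hl') (S ((S ^ k) ((↑L : L2 →L[ℂ] L2) x)))‖
  rw [Linv_S, S_norm, Spow_norm]

theorem key_norms : 4 ≤ ‖(↑L : L2 →L[ℂ] L2)‖ * ‖(↑L⁻¹ : L2 →L[ℂ] L2)‖ := by
  rw [L_val, L_inv]
  have h1 := dg_norm_ge l hl 0
  have h2 := dg_norm_ge l' hl' 1
  have h3 : |l 0| = 2 := by norm_num [l]
  have h4 : |l' 1| = 2 := by norm_num [l']
  rw [h3] at h1
  rw [h4] at h2
  nlinarith

theorem M_norms : ‖(↑M : L2 →L[ℂ] L2)‖ * ‖(↑M⁻¹ : L2 →L[ℂ] L2)‖ ≤ 2 := by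
  rw [M_val, M_inv]
  have h1 := dg_norm_le m hm 1 (by norm_num) hm1
  have h2 := dg_norm_le m' hm' 2 (by norm_num) hm'
  nlinarith [norm_nonneg (dg m hm), norm_nonneg (dg m' hm')]

end Pool.Agent.H6.Sim
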